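import Pool.Agent.Lib.P9f173dW.ThmC
import Pool.Agent.Lib.P9f173dW.CohVan
import Pool.Agent.Lib.P9f173dW.FinCon

/-!
# Thin subgroups of dimension at most two have no codimension one

If `R` is acyclic in the degrees `0, 1, 2` and `C` is a thin subgroup with a resolution of length at
most two then every `C`-almost invariant set is, up to finitely many cosets of `C`, empty or everything.
-/

namespace Pool.Agent.Lib.P9f173dE

open Z9f173d Pool.Agent.Lib.P9f173dW
open scoped Matrix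

universe u

noncomputable section

section
variable {G : Type*} [Group G] {C : Subgroup G} {r s : ℕ}

/-- the coefficient of the unit -/
def ev (e : Fin s) : (Fin s → MonoidAlgebra ℤ C) →+ ℤ where
  toFun v := (v e).coeff 1
  map_zero' := rfl
  map_add' _ _ := rfl

theorem ev_gs (e : Fin s) (c : C) (v : Fin s → MonoidAlgebra ℤ C) :
    ev e (gs c v) = (v e).coeff c⁻¹ := by
  show (MonoidAlgebra.single c 1 * v e).coeff 1 = _
  rw [MonoidAlgebra.coeff_single_mul_apply, one_mul, mul_one]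

theorem ext_ev {v w : Fin s → MonoidAlgebra ℤ C} (h : ∀ (e : Fin s) (c : C), ev e (gs c v) = ev e (gs c w)) :
    v = w := by
  funext e
  ext c
  have h1 := h e c⁻¹
  rwa [ev_gs, ev_gs, inv_inv] at h1

/-- the equivariant map with given coordinates -/
def up (θ : Fin s → ((Fin r → MonoidAlgebra ℤ G) →+ ℤ))
    (h : ∀ e v, {c : C | θ e (gs (c : G) v) ≠ 0}.Finite) :
    (Fin r → MonoidAlgebra ℤ G) →+ (Fin s → MonoidAlgebra ℤ C) where
  toFun v := fun e => MonoidAlgebra.ofCoeff (Finsupp.ofSupportFinite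
    (fun c : C => θ e (gs ((c⁻¹ : C) : G) v)) ((h e v).preimage (f := fun c : C => c⁻¹)
      inv_injective.injOn))
  map_zero' := by
    funext e
    ext c
    show θ e (gs ((c⁻¹ : C) : G) 0) = 0
    have h1 : gs ((c⁻¹ : C) : G) (0 : Fin r → MonoidAlgebra ℤ G) = 0 := by
      funext j
      exact mul_zero _
    rw [h1, map_zero]
  map_add' v w := by
    funext e
    ext c
    show θ e (gs ((c⁻¹ : C) : G) (v + w)) = θ e (gs ((c⁻¹ : C) : G) v) + θ e (gs ((c⁻¹ : C) : G) w)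
    rw [gs_add, map_add]

theorem up_coeff (θ : Fin s → ((Fin r → MonoidAlgebra ℤ G) →+ ℤ))
    (h : ∀ e v, {c : C | θ e (gs (c : G) v) ≠ 0}.Finite) (v : Fin r → MonoidAlgebra ℤ G) (e : Fin s)
    (c : C) : (up θ h v e).coeff c = θ e (gs ((c⁻¹ : C) : G) v) := rfl

theorem up_gs (θ : Fin s → ((Fin r → MonoidAlgebra ℤ G) →+ ℤ))
    (h : ∀ e v, {c : C | θ e (gs (c : G) v) ≠ 0}.Finite) (c : C) (v : Fin r → MonoidAlgebra ℤ G) :
    up θ h (gs (c : G) v) = gs c (up θ h v) := by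
  funext e
  ext d
  have h1 : (gs c (up θ h v) e).coeff d = (up θ h v e).coeff (c⁻¹ * d) := by
    show (MonoidAlgebra.single c 1 * up θ h v e).coeff d = _
    rw [MonoidAlgebra.coeff_single_mul_apply, one_mul]
  rw [h1, up_coeff, up_coeff, gs_gs]
  congr 2
  show ((d⁻¹ : C) : G) * (c : G) = (((c⁻¹ * d)⁻¹ : C) : G)
  rw [mul_inv_rev, inv_inv]
  rfl

theorem ev_up (θ : Fin s → ((Fin r → MonoidAlgebra ℤ G) →+ ℤ))
    (h : ∀ e v, {c : C | θ e (gs (c : G) v) ≠ 0}.Finite) (v : Fin r → MonoidAlgebra ℤ G) (e : Fin s) :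
    ev e (up θ h v) = θ e v := by
  show (up θ h v e).coeff 1 = _
  rw [up_coeff, inv_one]
  show θ e (gs 1 v) = _
  rw [P9f173dW.gs_one]

/-- the coordinates of an equivariant map have finite support on every coset -/
theorem fin_ev (Y : (Fin r → MonoidAlgebra ℤ G) →+ (Fin s → MonoidAlgebra ℤ C))
    (hY : ∀ (c : C) v, Y (gs (c : G) v) = gs c (Y v)) (e : Fin s) (v : Fin r → MonoidAlgebra ℤ G) :
    {c : C | (ev e).comp Y (gs (c : G) v) ≠ 0}.Finite := by
  have h1 : (Function.support (Y v e).coeff).Finite := (Y v e).coeff.hasFiniteSupport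
  refine (h1.preimage (f := fun c : C => c⁻¹) inv_injective.injOn).subset fun c hc => ?_
  have h2 : ev e (Y (gs (c : G) v)) ≠ 0 := hc
  rw [hY, ev_gs] at h2
  exact h2

theorem fin_pair {k : ℕ} (f : Fin k → Fin r → G → ℤ) (hf : ∀ e j, (Function.support (f e j)).Finite)
    (e : Fin k) (v : Fin r → MonoidAlgebra ℤ G) :
    {c : C | pair (f e) (gs (c : G) v) ≠ 0}.Finite := by
  revert v
  rw [finite_iff, fn_pair]
  intro j x
  exact (hf e j).preimage (f := fun c : C => x * (c : G))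
    (fun a _ b _ h => Subtype.ext (mul_left_cancel h))

/-- right multiplication by a matrix over `ℤ[C]` preserves finite support -/
theorem fin_mul {k : ℕ} (Y : (Fin r → MonoidAlgebra ℤ G) →+ (Fin s → MonoidAlgebra ℤ C))
    (hY : ∀ (c : C) v, Y (gs (c : G) v) = gs c (Y v))
    (hf : ∀ e j, (Function.support (fn ((ev e).comp Y) j)).Finite)
    (M : Matrix (Fin s) (Fin k) (MonoidAlgebra ℤ C))
    (Y' : (Fin r → MonoidAlgebra ℤ G) →+ (Fin k → MonoidAlgebra ℤ C)) (hY' : ∀ v, Y' v = Y v ᵥ* M)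
    (e' : Fin k) (j : Fin r) : (Function.support (fn ((ev e').comp Y') j)).Finite := by
  classical
  have h1 : (⋃ e : Fin s, ⋃ c ∈ (M e e').coeff.support,
      (fun x : G => x * ((c⁻¹ : C) : G)) ⁻¹' Function.support (fn ((ev e).comp Y) j)).Finite := by
    refine Set.finite_iUnion fun e => Set.Finite.biUnion (Finset.finite_toSet _) fun c _ => ?_
    exact (hf e j).preimage (fun a _ b _ h => mul_right_cancel h)
  refine h1.subset fun x hx => ?_
  by_contra hcon
  apply hx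
  show ev e' (Y' _) = 0
  rw [hY']
  show (∑ e, Y (sv j (MonoidAlgebra.single x⁻¹ 1)) e * M e e').coeff 1 = 0
  rw [MonoidAlgebra.coeff_sum, Finset.sum_apply']
  refine Finset.sum_eq_zero fun e _ => ?_
  rw [MonoidAlgebra.coeff_mul_apply_right]
  refine Finset.sum_eq_zero fun c hc => ?_
  have h2 : (Y (sv j (MonoidAlgebra.single x⁻¹ 1)) e).coeff (1 * c⁻¹) = 0 := by
    rw [one_mul, ← ev_gs, ← hY]
    by_contra h3
    apply hcon
    refine Set.mem_iUnion.2 ⟨e, Set.mem_iUnion₂.2 ⟨c, hc, ?_⟩⟩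
    show fn ((ev e).comp Y) j (x * ((c⁻¹ : C) : G)) ≠ 0
    rw [fn_mul]
    show ev e (Y (gs (((c⁻¹ : C) : G))⁻¹ _)) ≠ 0
    have h4 : (((c⁻¹ : C) : G))⁻¹ = (c : G) := by
      rw [InvMemClass.coe_inv, inv_inv]
    rw [h4]
    exact h3
  show (Y (sv j (MonoidAlgebra.single x⁻¹ 1)) e).coeff (1 * c⁻¹) * (M e e').coeff c = 0
  rw [h2, zero_mul]

/-- restriction to the part over `A` -/
def pr (A : Set G) : (Fin r → MonoidAlgebra ℤ G) →+ (Fin r → MonoidAlgebra ℤ G) := by
  classical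
  exact
  { toFun := fun v j => MonoidAlgebra.ofCoeff ((v j).coeff.filter (fun g => g⁻¹ ∈ A))
    map_zero' := by
      funext j
      ext g
      show ((0 : MonoidAlgebra ℤ G).coeff.filter (fun g => g⁻¹ ∈ A)) g = 0
      rw [Finsupp.filter_apply]
      split_ifs <;> rfl
    map_add' := fun v w => by
      funext j
      ext g
      show ((v j + w j).coeff.filter (fun g => g⁻¹ ∈ A)) g =
        ((v j).coeff.filter (fun g => g⁻¹ ∈ A)) g + ((w j).coeff.filter (fun g => g⁻¹ ∈ A)) g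
      rw [Finsupp.filter_apply, Finsupp.filter_apply, Finsupp.filter_apply]
      split_ifs
      · rfl
      · rw [add_zero] }

open Classical in
theorem pr_coeff (A : Set G) (v : Fin r → MonoidAlgebra ℤ G) (j : Fin r) (g : G) :
    (pr A v j).coeff g = if g⁻¹ ∈ A then (v j).coeff g else 0 := by
  show ((v j).coeff.filter (fun g => g⁻¹ ∈ A)) g = _
  rw [Finsupp.filter_apply]

theorem pr_gs {A : Set G} (hA : AI C A) (c : C) (v : Fin r → MonoidAlgebra ℤ G) :
    pr A (gs (c : G) v) = gs (c : G) (pr A v) := by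
  classical
  funext j
  ext g
  have h1 : (gs (c : G) (pr A v) j).coeff g = (pr A v j).coeff ((c : G)⁻¹ * g) := by
    show (MonoidAlgebra.single (c : G) 1 * pr A v j).coeff g = _
    rw [MonoidAlgebra.coeff_single_mul_apply, one_mul]
  have h2 : (gs (c : G) v j).coeff g = (v j).coeff ((c : G)⁻¹ * g) := by
    show (MonoidAlgebra.single (c : G) 1 * v j).coeff g = _
    rw [MonoidAlgebra.coeff_single_mul_apply, one_mul]
  rw [h1, pr_coeff, pr_coeff, h2]
  have h3 : ((c : G)⁻¹ * g)⁻¹ ∈ A ↔ g⁻¹ ∈ A := by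
    rw [mul_inv_rev, inv_inv]
    exact hA.inv _ c
  simp only [h3]

theorem pr_sv (A : Set G) (j : Fin r) (x : G) :
    (x ∈ A → pr A (sv j (MonoidAlgebra.single x⁻¹ 1)) = sv j (MonoidAlgebra.single x⁻¹ 1)) ∧
      (x ∉ A → pr A (sv j (MonoidAlgebra.single x⁻¹ 1)) = 0) := by
  classical
  have key : ∀ (i : Fin r) (g : G), g⁻¹ ≠ x →
      (sv (n := r) j (MonoidAlgebra.single x⁻¹ 1 : MonoidAlgebra ℤ G) i).coeff g = 0 := by
    intro i g hg
    by_cases hij : i = j
    · subst hij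
      have h1 : (sv (n := r) i (MonoidAlgebra.single x⁻¹ 1 : MonoidAlgebra ℤ G) i) =
          MonoidAlgebra.single x⁻¹ 1 := Pi.single_eq_same _ _
      rw [h1]
      show (Finsupp.single x⁻¹ (1 : ℤ)) g = 0
      rw [Finsupp.single_apply, if_neg]
      intro h2
      apply hg
      rw [← h2, inv_inv]
    · have h1 : (sv (n := r) j (MonoidAlgebra.single x⁻¹ 1 : MonoidAlgebra ℤ G) i) = 0 :=
        Pi.single_eq_of_ne hij _
      rw [h1]
      rfl
  constructor
  · intro hx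
    funext i
    ext g
    rw [pr_coeff]
    split_ifs with h
    · rfl
    · refine (key i g fun h1 => h ?_).symm
      rw [h1]
      exact hx
  · intro hx
    funext i
    ext g
    rw [pr_coeff]
    split_ifs with h
    · exact key i g fun h1 => hx (by rwa [h1] at h)
    · rfl

theorem pair_pr (A : Set G) (f : Fin r → G → ℤ) (v : Fin r → MonoidAlgebra ℤ G) :
    pair f (pr A v) = pair (fun j => A.indicator (f j)) v := by
  classical
  have h1 : (pair f).comp (pr A) = pair (fun j => A.indicator (f j)) := by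
    apply addHom_ext
    intro j x
    obtain ⟨y, rfl⟩ : ∃ y, x = y⁻¹ := ⟨x⁻¹, (inv_inv x).symm⟩
    rw [pair_sv_single]
    show pair f (pr A _) = _
    by_cases hy : y ∈ A
    · rw [(pr_sv A j y).1 hy, pair_sv_single, Set.indicator_of_mem hy]
    · rw [(pr_sv A j y).2 hy, map_zero, Set.indicator_of_notMem hy]
  exact DFunLike.congr_fun h1 v

end

/-- descent of a cocycle with finite support -/
theorem desc {G : Type*} [Group G] {C : Subgroup G} (R : FinRes G)
    (h0 : ¬ Nontrivial (R.homology 0)) (h1 : ¬ Nontrivial (R.homology 1))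
    (h2 : ¬ Nontrivial (R.homology 2)) {i : ℕ} (hi : i ≤ 1) {k : ℕ}
    (γ : (Fin (R.rank (i + 1)) → MonoidAlgebra ℤ G) →+ (Fin k → MonoidAlgebra ℤ C))
    (hγ : ∀ (c : C) v, γ (gs (c : G) v) = gs c (γ v))
    (hf : ∀ e j, (Function.support (fn ((ev e).comp γ) j)).Finite)
    (hd : ∀ v, γ (v ᵥ* R.d (i + 1)) = 0) :
    ∃ B : (Fin (R.rank i) → MonoidAlgebra ℤ G) →+ (Fin k → MonoidAlgebra ℤ C),
      (∀ (c : C) v, B (gs (c : G) v) = gs c (B v)) ∧
      (∀ e j, (Function.support (fn ((ev e).comp B) j)).Finite) ∧ ∀ v, B (v ᵥ* R.d i) = γ v := by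
  have key : ∀ e : Fin k, ∃ b : Fin (R.rank i) → G → ℤ, (∀ j, (Function.support (b j)).Finite) ∧
      mact (tr ℤ) (R.d i) b = fn ((ev e).comp γ) := by
    intro e
    have h3 : mact (tr ℤ) (R.d (i + 1)) (fn ((ev e).comp γ)) = 0 := by
      have h4 := fn_vecMul ((ev e).comp γ) 0 (R.d (i + 1)) (fun v => by
        show 0 = ev e (γ (v ᵥ* R.d (i + 1)))
        rw [hd, map_zero])
      rw [← h4]
      ext a x
      rfl
    have h5 : i = 0 ∨ i = 1 := by omega
    rcases h5 with rfl | rfl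
    · obtain ⟨c, hc, hcf⟩ := deg1 ⊥ foelner_bot R h0 h1 h2 _ (fun b => IL_bot (hf e b)) h3
      exact ⟨c, fun j => finite_of_IL_bot (hc j), hcf⟩
    · obtain ⟨c, hc, hcf⟩ := deg2 ⊥ foelner_bot R h0 h1 h2 _ (fun b => IL_bot (hf e b)) h3
      exact ⟨c, fun j => finite_of_IL_bot (hc j), hcf⟩
  choose b hb hbd using key
  refine ⟨up (fun e => pair (b e)) (fin_pair b hb), up_gs _ _, fun e j => ?_, fun v => ?_⟩
  · have h3 : (ev e).comp (up (fun e => pair (b e)) (fin_pair (C := C) b hb)) = pair (b e) :=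
      AddMonoidHom.ext fun v => ev_up (fun e => pair (b e)) (fin_pair (C := C) b hb) v e
    rw [h3, fn_pair]
    exact hb e j
  · refine ext_ev fun e c => ?_
    rw [← up_gs, ev_up, P9f173dW.gs_vecMul, pair_vecMul, hbd, pair_fn]
    show ev e (γ (gs (c : G) v)) = _
    rw [hγ]

section main
variable {G : Type u} [Group G] (R : FinRes G) (A : Set G)

/-- right multiplication by the boundary matrix -/
def vm (i : ℕ) : (Fin (R.rank (i + 1)) → MonoidAlgebra ℤ G) →+ (Fin (R.rank i) → MonoidAlgebra ℤ G) where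
  toFun v := v ᵥ* R.d i
  map_zero' := Matrix.zero_vecMul _
  map_add' v w := Matrix.add_vecMul _ _ _

/-- the commutator of the boundary with the restriction to `A` -/
def kap (i : ℕ) : (Fin (R.rank (i + 1)) → MonoidAlgebra ℤ G) →+ (Fin (R.rank i) → MonoidAlgebra ℤ G) :=
  (pr A).comp (vm R i) - (vm R i).comp (pr A)

theorem kap_apply (i : ℕ) (v : Fin (R.rank (i + 1)) → MonoidAlgebra ℤ G) :
    kap R A i v = pr A (v ᵥ* R.d i) - pr A v ᵥ* R.d i := rfl

theorem dd (i : ℕ) (v : Fin (R.rank (i + 2)) → MonoidAlgebra ℤ G) : (v ᵥ* R.d (i + 1)) ᵥ* R.d i = 0 := by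
  rw [Matrix.vecMul_vecMul, R.d_mul_d, Matrix.vecMul_zero]

theorem kap_d (i : ℕ) (v : Fin (R.rank (i + 2)) → MonoidAlgebra ℤ G) :
    kap R A i (v ᵥ* R.d (i + 1)) = -(pr A (v ᵥ* R.d (i + 1)) ᵥ* R.d i) := by
  rw [kap_apply, dd, map_zero, zero_sub]

theorem kap_kap (i : ℕ) (v : Fin (R.rank (i + 2)) → MonoidAlgebra ℤ G) :
    kap R A i (v ᵥ* R.d (i + 1)) = -(kap R A (i + 1) v ᵥ* R.d i) := by
  rw [kap_d, kap_apply, Matrix.sub_vecMul, dd, sub_zero]

theorem kap_gs {C : Subgroup G} {A : Set G} (hA : AI C A) (i : ℕ) (c : C)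
    (v : Fin (R.rank (i + 1)) → MonoidAlgebra ℤ G) :
    kap R A i (gs (c : G) v) = gs (c : G) (kap R A i v) := by
  rw [kap_apply, kap_apply, ← P9f173dW.gs_vecMul, pr_gs hA, pr_gs hA, ← P9f173dW.gs_vecMul]
  funext j
  exact (mul_sub _ _ _).symm

theorem kap_fin {C : Subgroup G} {A : Set G} (hA : AI C A) (i : ℕ)
    (θ : (Fin (R.rank i) → MonoidAlgebra ℤ G) →+ ℤ) (hθ : ∀ j, fn θ j ∈ LC C ℤ)
    (j : Fin (R.rank (i + 1))) : (Function.support (fn (θ.comp (kap R A i)) j)).Finite := by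
  have e1 : fn (θ.comp (kap R A i)) = mact (tr ℤ) (R.d i) (fun j => A.indicator (fn θ j)) -
      fun j => A.indicator (mact (tr ℤ) (R.d i) (fn θ) j) := by
    have h1 : θ.comp (kap R A i) = pair (mact (tr ℤ) (R.d i) (fun j => A.indicator (fn θ j)) -
      fun j => A.indicator (mact (tr ℤ) (R.d i) (fn θ) j)) := by
      refine AddMonoidHom.ext fun v => ?_
      show θ (kap R A i v) = _
      have h2 : ∀ (f g : Fin (R.rank (i + 1)) → G → ℤ), pair (f - g) v = pair f v - pair g v := by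
        intro f g
        rw [pair_apply, pair_apply, pair_apply, ← Finset.sum_sub_distrib]
        refine Finset.sum_congr rfl fun a _ => ?_
        rw [Pi.sub_apply, map_sub]
        rfl
      rw [h2, ← pair_vecMul, ← pair_pr, ← pair_pr, pair_fn, ← pair_vecMul, pair_fn, kap_apply, map_sub]
    rw [h1, fn_pair]
  rw [e1]
  exact SQ.finite (mact_indicator hA (R.d i) (fn θ) hθ j)

end main

theorem gs_sub' {H : Type*} [Group H] {n : ℕ} (g : H) (v w : Fin n → MonoidAlgebra ℤ H) :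
    gs g (v - w) = gs g v - gs g w := by
  funext j
  exact mul_sub _ _ _

theorem gs_neg' {H : Type*} [Group H] {n : ℕ} (g : H) (v : Fin n → MonoidAlgebra ℤ H) :
    gs g (-v) = -gs g v := by
  funext j
  exact mul_neg _ _

/-- Thin subgroups with a resolution of length at most two have no codimension one. -/
theorem thin_ends {G : Type u} [Group G] (R : FinRes G)
    (h0 : ¬ Nontrivial (R.homology 0)) (h1 : ¬ Nontrivial (R.homology 1))
    (h2 : ¬ Nontrivial (R.homology 2)) (C : Subgroup G) (S : FinRes C)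
    (hS2 : ∀ i, 2 < i → S.rank i = 0) (hS : Thin S) (A : Set G) (hA : AI C A) :
    (∃ F : Finset G, ∀ x ∈ A, ∃ a ∈ F, a⁻¹ * x ∈ C) ∨
      (∃ F : Finset G, ∀ x, x ∉ A → ∃ a ∈ F, a⁻¹ * x ∈ C) := by
  classical
  obtain ⟨D⟩ := exists_cmp C R S
  have hLC : ∀ i (e : Fin (S.rank i)) j, fn ((ev e).comp (D.Φ i)) j ∈ LC C ℤ := by
    intro i e j
    rw [mem_LC_int]
    exact (finite_iff C _).1 (fin_ev (D.Φ i) (D.Φ_gs i) e) j
  have hyc : ∀ e : Fin (S.rank 2), mact (tr ℤ) (R.d 2) (fn ((ev e).comp (D.Φ 2))) = 0 := by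
    intro e
    have h3 := fn_vecMul ((ev e).comp (D.Φ 2)) 0 (R.d 2) (fun v => by
      show 0 = ev e (D.Φ 2 (v ᵥ* R.d 2))
      rw [D.Φ_d 2 v]
      have h4 : D.Φ (2 + 1) v = 0 := by
        funext a
        exact Fin.elim0 (Fin.cast (hS2 3 (by norm_num)) a)
      rw [h4, Matrix.zero_vecMul, map_zero])
    rw [← h3]
    ext i x
    rfl
  choose z hz hzd using fun e => thmC R h0 h1 h2 C S hS A hA _ (hLC 2 e) (hyc e)
  obtain ⟨Z, hZgs, hZf, hZd⟩ : ∃ Z : (Fin (R.rank 2) → MonoidAlgebra ℤ G) →+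
      (Fin (S.rank 2) → MonoidAlgebra ℤ C), (∀ (c : C) v, Z (gs (c : G) v) = gs c (Z v)) ∧
      (∀ e j, (Function.support (fn ((ev e).comp Z) j)).Finite) ∧
      ∀ v, Z (v ᵥ* R.d 2) = D.Φ 2 (pr A (v ᵥ* R.d 2)) := by
    refine ⟨up (fun e => pair (z e)) (fin_pair z hz), up_gs _ _, fun e j => ?_, fun v => ?_⟩
    · have h3 : (ev e).comp (up (fun e => pair (z e)) (fin_pair (C := C) z hz)) = pair (z e) :=
        AddMonoidHom.ext fun v => ev_up (fun e => pair (z e)) (fin_pair (C := C) z hz) v e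
      rw [h3, fn_pair]
      exact hz e j
    · refine ext_ev fun e c => ?_
      rw [← up_gs, ev_up, P9f173dW.gs_vecMul, pair_vecMul, hzd, ← pair_vecMul, ← pair_pr, pair_fn,
        ← P9f173dW.gs_vecMul, pr_gs hA]
      show ev e (D.Φ 2 (gs (c : G) _)) = _
      rw [D.Φ_gs]
  -- the first descent
  obtain ⟨γ1, hγ1⟩ : ∃ γ1 : (Fin (R.rank (1 + 1)) → MonoidAlgebra ℤ G) →+
      (Fin (S.rank 1) → MonoidAlgebra ℤ C), ∀ v, γ1 v = -(D.Φ 1 (kap R A 1 v)) - Z v ᵥ* S.d 1 :=
    ⟨-((D.Φ 1).comp (kap R A 1)) - (vm S 1).comp Z, fun v => rfl⟩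
  obtain ⟨B, hBgs, hBf, hBd⟩ := desc (C := C) R h0 h1 h2 le_rfl γ1 (fun c v => by
      rw [hγ1, hγ1, kap_gs R hA, D.Φ_gs, hZgs, gs_sub', gs_neg', P9f173dW.gs_vecMul])
    (fun e j => by
      have e1 : (ev e).comp γ1 = -(((ev e).comp (D.Φ 1)).comp (kap R A 1)) -
          (ev e).comp ((vm S 1).comp Z) := by
        refine AddMonoidHom.ext fun v => ?_
        show ev e (γ1 v) = -(ev e (D.Φ 1 (kap R A 1 v))) - ev e (Z v ᵥ* S.d 1)
        rw [hγ1, map_sub, map_neg]
      have h3 := kap_fin R hA 1 _ (hLC 1 e) j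
      have h4 := fin_mul Z hZgs hZf (S.d 1) ((vm S 1).comp Z) (fun v => rfl) e j
      refine (h3.union h4).subset fun x hx => ?_
      by_contra hcon
      apply hx
      rw [Set.mem_union, not_or] at hcon
      have h5 := Function.notMem_support.1 hcon.1
      have h6 := Function.notMem_support.1 hcon.2
      rw [e1]
      show -(fn (((ev e).comp (D.Φ 1)).comp (kap R A 1)) j x) - fn ((ev e).comp ((vm S 1).comp Z)) j x = 0
      rw [h5, h6, neg_zero, sub_zero])
    (fun v => by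
      rw [hγ1, kap_d, map_neg, neg_neg, D.Φ_d, hZd, sub_self])
  -- the second descent
  obtain ⟨γ0, hγ0⟩ : ∃ γ0 : (Fin (R.rank (0 + 1)) → MonoidAlgebra ℤ G) →+
      (Fin (S.rank 0) → MonoidAlgebra ℤ C), ∀ v, γ0 v = D.Φ 0 (kap R A 0 v) - B v ᵥ* S.d 0 :=
    ⟨(D.Φ 0).comp (kap R A 0) - (vm S 0).comp B, fun v => rfl⟩
  obtain ⟨a, hags, haf, had⟩ := desc (C := C) R h0 h1 h2 (Nat.zero_le 1) γ0 (fun c v => by
      rw [hγ0, hγ0, kap_gs R hA, D.Φ_gs, hBgs, gs_sub', P9f173dW.gs_vecMul])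
    (fun e j => by
      have e1 : (ev e).comp γ0 = ((ev e).comp (D.Φ 0)).comp (kap R A 0) -
          (ev e).comp ((vm S 0).comp B) := by
        refine AddMonoidHom.ext fun v => ?_
        show ev e (γ0 v) = ev e (D.Φ 0 (kap R A 0 v)) - ev e (B v ᵥ* S.d 0)
        rw [hγ0, map_sub]
      have h3 := kap_fin R hA 0 _ (hLC 0 e) j
      have h4 := fin_mul B hBgs hBf (S.d 0) ((vm S 0).comp B) (fun v => rfl) e j
      refine (h3.union h4).subset fun x hx => ?_
      by_contra hcon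
      apply hx
      rw [Set.mem_union, not_or] at hcon
      have h5 := Function.notMem_support.1 hcon.1
      have h6 := Function.notMem_support.1 hcon.2
      rw [e1]
      show fn (((ev e).comp (D.Φ 0)).comp (kap R A 0)) j x - fn ((ev e).comp ((vm S 0).comp B)) j x = 0
      rw [h5, h6, sub_zero])
    (fun v => by
      rw [hγ0, hBd, hγ1, kap_kap, map_neg, D.Φ_d, Matrix.sub_vecMul, Matrix.neg_vecMul,
        Matrix.vecMul_vecMul (Z v), S.d_mul_d, Matrix.vecMul_zero, sub_zero, sub_self])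
  -- augmentation
  obtain ⟨u, hu⟩ : ∃ u : (Fin (R.rank 0) → MonoidAlgebra ℤ G) →+ ℤ,
      ∀ v, u v = S.augMap (D.Φ 0 (pr A v)) - S.augMap (a v) :=
    ⟨(S.augMap.comp (D.Φ 0)).comp (pr A) - S.augMap.comp a, fun v => rfl⟩
  have hud : ∀ v, 0 = u (v ᵥ* R.d 0) := by
    intro v
    rw [hu, had, hγ0, map_sub, S.augMap_vecMul, sub_zero, kap_apply, map_sub, map_sub, D.Φ_d,
      S.augMap_vecMul, sub_zero, sub_self]
  obtain ⟨κ, hκ⟩ := R.const_of_cocycle (fn u) (by
    rw [← fn_vecMul u 0 (R.d 0) hud]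
    ext i x
    rfl)
  have hwd : ∀ v, 0 = (S.augMap.comp (D.Φ 0)) (v ᵥ* R.d 0) := by
    intro v
    show 0 = S.augMap (D.Φ 0 (v ᵥ* R.d 0))
    rw [D.Φ_d, S.augMap_vecMul]
  obtain ⟨m, hm⟩ := R.const_of_cocycle (fn (S.augMap.comp (D.Φ 0))) (by
    rw [← fn_vecMul (S.augMap.comp (D.Φ 0)) 0 (R.d 0) hwd]
    ext i x
    rfl)
  have hm0 : m ≠ 0 := by
    intro hm0
    obtain ⟨v, hv⟩ := R.exists_x
    have h3 : S.augMap.comp (D.Φ 0) = 0 := by
      rw [← pair_fn (S.augMap.comp (D.Φ 0)), ← pair_fn (0 : (Fin (R.rank 0) → MonoidAlgebra ℤ G) →+ ℤ)]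
      congr 1
      ext j x
      rw [hm, hm0, smul_zero]
      rfl
    have h4 : S.augMap (D.Φ 0 v) = 0 := DFunLike.congr_fun h3 v
    obtain ⟨w, hw⟩ := (S.augMap_eq_zero_iff _).1 h4
    have h5 := congrArg R.augMap (D.K_zero v)
    rw [← hw, D.Ψ_d, map_sub, R.augMap_vecMul, R.augMap_vecMul, sub_zero, hv] at h5
    exact one_ne_zero h5
  obtain ⟨j, hj⟩ := exists_aug_ne R
  let F : Finset G := Finset.univ.biUnion fun e : Fin (S.rank 0) => (haf e j).toFinset
  have hF : ∀ x, (∀ b ∈ F, b⁻¹ * x ∉ C) → a (sv j (MonoidAlgebra.single x⁻¹ 1)) = 0 := by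
    intro x hx
    refine ext_ev fun e c => ?_
    rw [← hags]
    have h3 : fn ((ev e).comp a) j (x * ((c⁻¹ : C) : G)) = 0 := by
      by_contra h4
      refine hx (x * ((c⁻¹ : C) : G)) (Finset.mem_biUnion.2 ⟨e, Finset.mem_univ _,
        (Set.Finite.mem_toFinset _).2 h4⟩) ?_
      rw [mul_inv_rev, inv_mul_cancel_right, InvMemClass.coe_inv, inv_inv]
      exact c.2
    rw [fn_mul, InvMemClass.coe_inv, inv_inv] at h3
    rw [show ev e (a (gs (c : G) (sv j (MonoidAlgebra.single x⁻¹ 1)))) = 0 from h3]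
    have h5 : gs c (0 : Fin (S.rank 0) → MonoidAlgebra ℤ C) = 0 := by
      funext i
      exact mul_zero _
    rw [h5, map_zero]
  have hkey : ∀ x, (∀ b ∈ F, b⁻¹ * x ∉ C) → (x ∈ A → m = κ) ∧ (x ∉ A → κ = 0) := by
    intro x hx
    have h3 := hκ j x
    have h4 : fn u j x = S.augMap (D.Φ 0 (pr A (sv j (MonoidAlgebra.single x⁻¹ 1)))) -
        S.augMap (a (sv j (MonoidAlgebra.single x⁻¹ 1))) := hu _
    rw [h4, hF x hx, map_zero, sub_zero] at h3
    constructor
    · intro hxA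
      rw [(pr_sv A j x).1 hxA] at h3
      have h5 : S.augMap (D.Φ 0 (sv j (MonoidAlgebra.single x⁻¹ 1))) = R.aug j • m := hm j x
      rw [h5] at h3
      exact mul_left_cancel₀ hj h3
    · intro hxA
      rw [(pr_sv A j x).2 hxA, map_zero, map_zero] at h3
      have h5 : R.aug j * κ = 0 := h3.symm
      exact (mul_eq_zero.1 h5).resolve_left hj
  by_cases hκ0 : κ = 0
  · left
    refine ⟨F, fun x hx => ?_⟩
    by_contra hcon
    simp only [not_exists, not_and] at hcon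
    exact hm0 (((hkey x hcon).1 hx).trans hκ0)
  · right
    refine ⟨F, fun x hx => ?_⟩
    by_contra hcon
    simp only [not_exists, not_and] at hcon
    exact hκ0 ((hkey x hcon).2 hx)

end

end Pool.Agent.Lib.P9f173dE
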