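import Pool.Agent.Lib.P9f173dE.Ends
import Pool.Agent.Lib.P9f173dW.Final

/-!
# Final form: thin subgroups of codimension one
-/

namespace Pool.Agent.Lib.P9f173dE

open Z9f173d Pool.Agent.Lib.P9f173dW

universe u v

theorem final {G : Type u} [Group G] (R : FinRes G)
    (h : (∃ (C : Subgroup G) (S : FinRes C) (A : Set G),
        (∀ i, 2 < i → S.rank i = 0) ∧ Thin S ∧ AI C A ∧
        (∀ F : Finset G, ∃ x ∈ A, ∀ a ∈ F, a⁻¹ * x ∉ C) ∧
        (∀ F : Finset G, ∃ x ∉ A, ∀ a ∈ F, a⁻¹ * x ∉ C)) ∨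
      (∃ (V : Type v) (_ : MulAction G V) (T : SimpleGraph V), T.IsTree ∧
        (∀ (g : G) (v w : V), T.Adj v w → T.Adj (g • v) (g • w)) ∧
        ∃ v w : V, T.Adj v w ∧
          (∃ S : FinRes ↥(MulAction.stabilizer G v ⊓ MulAction.stabilizer G w), Thin S ∧
            Nontrivial (S.cohomology ↥(MulAction.stabilizer G v ⊓ MulAction.stabilizer G w) 2)) ∧
          ∀ x : V, x = v ∨ x = w → ∃ S : FinRes (MulAction.stabilizer G x),
            ¬ Nontrivial (S.cohomology (MulAction.stabilizer G x) 2)) ∨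
      (∃ (C : Subgroup G) (S : FinRes C) (A : Set G) (y : Fin (R.rank 2) → G → ℤ),
        Thin S ∧ AI C A ∧ (∀ j x, {c : C | y j (x * c) ≠ 0}.Finite) ∧
        cob (R.d 2) y = 0 ∧
        ¬ ∃ z : Fin (R.rank 2) → G → ℤ, (∀ j, {x | z j x ≠ 0}.Finite) ∧
          cob (R.d 2) z = cob (R.d 2) fun j => A.indicator (y j))) :
    ∃ i ≤ 2, Nontrivial (R.homology i) := by
  rcases h with ⟨C, S, A, hS2, hS, hA, hA1, hA2⟩ | h | h
  · refine exists_le_two R fun h0 h1 h2 => ?_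
    rcases thin_ends R h0 h1 h2 C S hS2 hS A hA with ⟨F, hF⟩ | ⟨F, hF⟩
    · obtain ⟨x, hx, hxF⟩ := hA1 F
      obtain ⟨a, ha, hax⟩ := hF x hx
      exact hxF a ha hax
    · obtain ⟨x, hx, hxF⟩ := hA2 F
      obtain ⟨a, ha, hax⟩ := hF x hx
      exact hxF a ha hax
  · exact P9f173dW.final R (Or.inr (Or.inl h))
  · exact P9f173dW.final.{u, v} R (Or.inr (Or.inr h))

end Pool.Agent.Lib.P9f173dE
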